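import Mathlib

/-!
One-dimensional integrals used for the orthonormality of the affine system.
-/

set_option autoImplicit false

namespace Pool.Agent.Hhelper25.Basis1D

open MeasureTheory Set

/-- `e^{2 π i u}` -/
noncomputable def ee (u : ℝ) : ℂ := Complex.exp (((2 * Real.pi * u : ℝ) : ℂ) * Complex.I)

lemma ee_add (u v : ℝ) : ee (u + v) = ee u * ee v := by
  unfold ee
  rw [← Complex.exp_add]
  congr 1
  push_cast; ring

lemma ee_zero : ee 0 = 1 := by simp [ee]

lemma ee_norm (u : ℝ) : ‖ee u‖ = 1 := by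
  unfold ee
  rw [Complex.norm_exp_ofReal_mul_I]

lemma ee_conj (u : ℝ) : (starRingEnd ℂ) (ee u) = ee (-u) := by
  unfold ee
  rw [← Complex.exp_conj]
  congr 1
  rw [map_mul, Complex.conj_ofReal, Complex.conj_I]
  push_cast; ring

lemma ee_int (n : ℤ) : ee n = 1 := by
  unfold ee
  have : (((2 * Real.pi * n : ℝ) : ℂ) * Complex.I) = n * (2 * Real.pi * Complex.I) := by
    push_cast; ring
  rw [this, Complex.exp_int_mul_two_pi_mul_I]

lemma ee_continuous : Continuous ee := by
  unfold ee
  fun_prop

lemma ee_measurable : Measurable ee := ee_continuous.measurable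

/-- integral of a character over an interval of length one -/
lemma integral_ee (r : ℤ) (α : ℝ) : ∫ u in α..(α + 1), ee (r * u) = if r = 0 then 1 else 0 := by
  split_ifs with h
  · subst h
    simp [ee_zero]
  · have hr : (2 * Real.pi * r * Complex.I : ℂ) ≠ 0 := by
      have h1 : (r : ℂ) ≠ 0 := by exact_mod_cast h
      have h2 : (Real.pi : ℂ) ≠ 0 := by exact_mod_cast Real.pi_ne_zero
      simp [h1, h2]
    have h1 : ∀ u : ℝ, ee (r * u) = Complex.exp ((2 * Real.pi * r * Complex.I : ℂ) * u) := by
      intro u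
      unfold ee
      congr 1
      push_cast; ring
    simp only [h1]
    rw [integral_exp_mul_complex hr]
    have h2 : Complex.exp ((2 * Real.pi * r * Complex.I : ℂ) * ((α + 1 : ℝ) : ℂ))
        = Complex.exp ((2 * Real.pi * r * Complex.I : ℂ) * (α : ℂ)) := by
      have : (2 * Real.pi * r * Complex.I : ℂ) * ((α + 1 : ℝ) : ℂ)
          = (2 * Real.pi * r * Complex.I : ℂ) * (α : ℂ) + r * (2 * Real.pi * Complex.I) := by
        push_cast; ring
      rw [this, Complex.exp_add, Complex.exp_int_mul_two_pi_mul_I, mul_one]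
    rw [h2, sub_self, zero_div]

lemma floor_eq_iff' (u : ℝ) (m : ℤ) : ⌊u⌋ = m ↔ u ∈ Ico (m : ℝ) (m + 1) := by
  rw [Int.floor_eq_iff, mem_Ico]

/-- the functions `e^{-2 π i s u} 1_{[m, m+1)}` -/
noncomputable def ww (s m : ℤ) (u : ℝ) : ℂ := if ⌊u⌋ = m then ee (-(s * u)) else 0

lemma ww_measurable (s m : ℤ) : Measurable (ww s m) := by
  unfold ww
  refine Measurable.ite ?_ (ee_measurable.comp (by fun_prop)) measurable_const
  exact (measurableSet_singleton m).preimage Int.measurable_floor

lemma ww_inner (s m s' m' : ℤ) :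
    ∫ u, (starRingEnd ℂ) (ww s m u) * ww s' m' u = if s = s' ∧ m = m' then 1 else 0 := by
  by_cases hm : m = m'
  · subst hm
    have h1 : ∀ u, (starRingEnd ℂ) (ww s m u) * ww s' m u
        = (Ico (m : ℝ) (m + 1)).indicator (fun u => ee (((s - s' : ℤ) : ℝ) * u)) u := by
      intro u
      unfold ww
      by_cases hu : ⌊u⌋ = m
      · rw [if_pos hu, if_pos hu, indicator_of_mem ((floor_eq_iff' u m).mp hu), ee_conj, ← ee_add]
        congr 1
        push_cast; ring
      · rw [if_neg hu, if_neg hu, indicator_of_notMem (fun h => hu ((floor_eq_iff' u m).mpr h))]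
        simp
    simp only [h1]
    rw [integral_indicator measurableSet_Ico, integral_Ico_eq_integral_Ioc,
      ← intervalIntegral.integral_of_le (by linarith), integral_ee]
    simp [sub_eq_zero]
  · have h1 : ∀ u, (starRingEnd ℂ) (ww s m u) * ww s' m' u = 0 := by
      intro u
      unfold ww
      by_cases hu : ⌊u⌋ = m
      · rw [if_neg (fun h => hm (hu.symm.trans h)), mul_zero]
      · rw [if_neg hu]; simp
    simp only [h1, integral_zero]
    simp [hm]

/-- rescaled version -/
lemma ww_inner_scaled (c : ℝ) (hc : 0 < c) (s m s' m' : ℤ) :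
    ∫ x, ((Real.sqrt c : ℂ) * (starRingEnd ℂ) (ww s m (c * x))) * ((Real.sqrt c : ℂ) * ww s' m' (c * x))
      = if s = s' ∧ m = m' then 1 else 0 := by
  have h1 : ∀ x, ((Real.sqrt c : ℂ) * (starRingEnd ℂ) (ww s m (c * x))) * ((Real.sqrt c : ℂ) * ww s' m' (c * x))
      = (c : ℂ) * ((fun u => (starRingEnd ℂ) (ww s m u) * ww s' m' u) (c * x)) := by
    intro x
    have : (Real.sqrt c : ℂ) * (Real.sqrt c : ℂ) = (c : ℂ) := by
      rw [← Complex.ofReal_mul, Real.mul_self_sqrt hc.le]
    simp only
    rw [← this]; ring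
  simp only [h1]
  rw [integral_const_mul, Measure.integral_comp_mul_left (fun u => (starRingEnd ℂ) (ww s m u) * ww s' m' u) c,
    ww_inner, abs_of_pos (inv_pos.mpr hc), Complex.real_smul, ← mul_assoc, ← Complex.ofReal_mul,
    mul_inv_cancel₀ hc.ne', Complex.ofReal_one, one_mul]

/-- the integral over the centred interval of length `1/c` -/
lemma integral_centred (c : ℝ) (hc : 0 < c) (r : ℤ) :
    ∫ y, (if 2 * |y| * c < 1 then (c : ℂ) * ee (r * (c * y)) else 0) = if r = 0 then 1 else 0 := by
  have h1 : ∀ y, (if 2 * |y| * c < 1 then (c : ℂ) * ee (r * (c * y)) else 0)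
      = (c : ℂ) * ((fun u => (if 2 * |u| < 1 then ee (r * u) else 0)) (c * y)) := by
    intro y
    simp only
    rw [abs_mul, abs_of_pos hc]
    have : 2 * |y| * c = 2 * (c * |y|) := by ring
    rw [this]
    split_ifs <;> simp
  simp only [h1]
  rw [integral_const_mul, Measure.integral_comp_mul_left (fun u => (if 2 * |u| < 1 then ee (r * u) else 0)) c]
  have h2 : ∫ u : ℝ, (if 2 * |u| < 1 then ee (r * u) else 0) = if r = 0 then 1 else 0 := by
    have h3 : ∀ u : ℝ, (if 2 * |u| < 1 then ee (r * u) else 0)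
        = (Ioo (-(1 / 2) : ℝ) (1 / 2)).indicator (fun u => ee (r * u)) u := by
      intro u
      by_cases hu : 2 * |u| < 1
      · rw [if_pos hu, indicator_of_mem]
        have : |u| < 1 / 2 := by linarith
        exact abs_lt.mp this
      · rw [if_neg hu, indicator_of_notMem]
        intro h
        have : |u| < 1 / 2 := abs_lt.mpr h
        exact hu (by linarith)
    simp only [h3]
    rw [integral_indicator measurableSet_Ioo, ← integral_Ioc_eq_integral_Ioo,
      ← intervalIntegral.integral_of_le (by norm_num)]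
    have := integral_ee r (-(1 / 2))
    norm_num at this ⊢
    exact this
  rw [h2, abs_of_pos (inv_pos.mpr hc), Complex.real_smul, ← mul_assoc, ← Complex.ofReal_mul,
    mul_inv_cancel₀ hc.ne', Complex.ofReal_one, one_mul]

end Pool.Agent.Hhelper25.Basis1D
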