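import Pool.Agent.Hhelper25.PlaneComplete

/-!
The Calderon sum of the wavelet is smaller than one everywhere off a null set.
-/

set_option autoImplicit false

namespace Pool.Agent.Hhelper25.Plane

open MeasureTheory Set
open Pool.Agent.Hhelper25.Basis1D Pool.Agent.Hhelper25.GreedyCover

lemma psiHat_sq (a b : ℕ) (ha : 1 < a) (hb : 1 < b) (x y : ℝ) (hy : y ≠ 0) (j : ℤ) :
    ‖psiHat a b ((a : ℝ) ^ (-j) * x, (b : ℝ) ^ j * y)‖ ^ 2 =
      if q b y + j < 0 ∧ ⌊(a : ℝ) ^ (q b y) * x⌋ = mm a (-(q b y + j) - 1).toNat then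
        (a : ℝ) ^ (q b y + j) else 0 := by
  have hb0 : (0 : ℝ) < b := by exact_mod_cast (by omega : 0 < b)
  have ha0 : (0 : ℝ) < a := by exact_mod_cast (by omega : 0 < a)
  have hs := q_scale b hb y hy (-j)
  rw [neg_neg, sub_neg_eq_add] at hs
  have hne : (b : ℝ) ^ j * y ≠ 0 := mul_ne_zero (zpow_ne_zero _ hb0.ne') hy
  unfold psiHat
  simp only
  rw [hs]
  by_cases h1 : q b y + j < 0
  · rw [if_pos ⟨hne, h1⟩]
    have hx : (a : ℝ) ^ (q b y + j) * ((a : ℝ) ^ (-j) * x) = (a : ℝ) ^ (q b y) * x := by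
      rw [← mul_assoc, ← zpow_add₀ ha0.ne']; congr 2; ring
    rw [hx]
    unfold ww
    by_cases h2 : ⌊(a : ℝ) ^ (q b y) * x⌋ = mm a (-(q b y + j) - 1).toNat
    · rw [if_pos h2, if_pos ⟨h1, h2⟩, norm_mul, ee_norm, mul_one, Complex.norm_real,
        Real.norm_of_nonneg (Real.sqrt_nonneg _), Real.sq_sqrt (by positivity)]
    · rw [if_neg h2, if_neg (fun h => h2 h.2)]
      simp
  · rw [if_neg (fun h => h1 h.2), if_neg (fun h => h1 h.1)]
    simp

lemma geom_sum (a : ℕ) (ha : 1 < a) :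
    Summable (fun i : ℕ => ((a : ℝ) ^ (i + 1))⁻¹) ∧ ∑' i : ℕ, ((a : ℝ) ^ (i + 1))⁻¹ ≤ 1 := by
  have ha2 : (2 : ℝ) ≤ a := by exact_mod_cast ha
  have h0 : (0 : ℝ) < a := by linarith
  have h1 : (a : ℝ)⁻¹ < 1 := inv_lt_one_of_one_lt₀ (by linarith)
  have h2 := hasSum_geometric_of_lt_one (inv_nonneg.mpr h0.le) h1
  have h3 := h2.mul_left ((a : ℝ)⁻¹)
  have h4 : (fun i : ℕ => ((a : ℝ) ^ (i + 1))⁻¹) = fun i : ℕ => (a : ℝ)⁻¹ * (a : ℝ)⁻¹ ^ i := by
    funext i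
    rw [inv_pow, pow_succ, mul_inv, mul_comm]
  rw [h4]
  refine ⟨h3.summable, ?_⟩
  rw [h3.tsum_eq]
  have h5 : (a : ℝ)⁻¹ * (1 - (a : ℝ)⁻¹)⁻¹ = ((a : ℝ) - 1)⁻¹ := by
    have : (a : ℝ) - 1 ≠ 0 := by linarith
    field_simp
  rw [h5]
  exact inv_le_one_of_one_le₀ (by linarith)

theorem calderon_lt (a b : ℕ) (ha : 1 < a) (hb : 1 < b) (x y : ℝ) (hy : y ≠ 0) :
    Summable (fun j : ℤ => ‖psiHat a b ((a : ℝ) ^ (-j) * x, (b : ℝ) ^ j * y)‖ ^ 2) ∧
    ∑' j : ℤ, ‖psiHat a b ((a : ℝ) ^ (-j) * x, (b : ℝ) ^ j * y)‖ ^ 2 < 1 := by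
  have ha0 : (0 : ℝ) < a := by exact_mod_cast (by omega : 0 < a)
  simp only [psiHat_sq a b ha hb x y hy]
  set n := q b y with hn
  set M := ⌊(a : ℝ) ^ n * x⌋ with hM
  set f : ℤ → ℝ := fun j => if n + j < 0 ∧ M = mm a (-(n + j) - 1).toNat then (a : ℝ) ^ (n + j) else 0 with hf
  let e : ℕ → ℤ := fun i => -n - 1 - i
  have he : Function.Injective e := by
    intro i i' h
    simp only [e] at h
    omega
  have hsupp : ∀ j, j ∉ range e → f j = 0 := by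
    intro j hj
    rw [hf]
    simp only
    rw [if_neg]
    rintro ⟨h1, _⟩
    apply hj
    refine ⟨(-n - 1 - j).toNat, ?_⟩
    simp only [e]
    omega
  have hval : ∀ i, (f ∘ e) i = if M = mm a i then ((a : ℝ) ^ (i + 1))⁻¹ else 0 := by
    intro i
    have h1 : n + e i = -((i : ℤ) + 1) := by simp only [e]; ring
    have h2 : (-(n + e i) - 1).toNat = i := by rw [h1]; simp
    simp only [Function.comp, hf]
    rw [h2, h1, zpow_neg]
    have h3 : (a : ℝ) ^ ((i : ℤ) + 1) = (a : ℝ) ^ (i + 1) := by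
      rw [← zpow_natCast]; congr 1
    rw [h3]
    have h4 : (-((i : ℤ) + 1) < 0 ∧ M = mm a i) ↔ M = mm a i := by
      constructor
      · exact fun h => h.2
      · exact fun h => ⟨by omega, h⟩
    simp only [h4]
  obtain ⟨hg1, hg2⟩ := geom_sum a ha
  have hle : ∀ i, (f ∘ e) i ≤ ((a : ℝ) ^ (i + 1))⁻¹ := by
    intro i
    rw [hval]
    split_ifs
    · exact le_rfl
    · positivity
  have hnn : ∀ i, 0 ≤ (f ∘ e) i := by
    intro i
    rw [hval]
    split_ifs <;> positivity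
  have hsum : Summable (f ∘ e) := Summable.of_nonneg_of_le hnn hle hg1
  have hsum' : Summable f := (he.summable_iff hsupp).mp hsum
  refine ⟨hsum', ?_⟩
  rw [← he.tsum_eq (fun j hj => by
    by_contra h
    exact hj (hsupp j h))]
  obtain ⟨i0, _, hi0, _⟩ := cover a (M + 1) 0
  have hlt : (f ∘ e) i0 < ((a : ℝ) ^ (i0 + 1))⁻¹ := by
    rw [hval, if_neg (by rw [hi0]; omega)]
    positivity
  have h6 := hsum.tsum_lt_tsum hle hlt hg1
  exact lt_of_lt_of_le h6 hg2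

end Pool.Agent.Hhelper25.Plane
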