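import Pool.Agent.Hhelper25.GenOp

/-!
Covariance of the Fourier transform on `L²` under `f ↦ |det L|^{1/2} f(L x - k)`, `L` symmetric.
-/

set_option autoImplicit false
set_option linter.unusedSectionVars false

namespace Pool.Agent.Hhelper25.Covariance

open MeasureTheory Set ENNReal FourierTransform
open Pool.Agent.Hhelper25.GenOp
open scoped SchwartzMap RealInnerProductSpace

variable {V : Type*} [NormedAddCommGroup V] [InnerProductSpace ℝ V] [FiniteDimensional ℝ V]
  [MeasurableSpace V] [BorelSpace V]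

/-- absolute value of the determinant -/
noncomputable def dt (L : V ≃L[ℝ] V) : ℝ := |LinearMap.det (L : V →ₗ[ℝ] V)|

lemma det_ne (L : V ≃L[ℝ] V) : LinearMap.det (L : V →ₗ[ℝ] V) ≠ 0 :=
  (LinearEquiv.isUnit_det' L.toLinearEquiv).ne_zero

lemma dt_pos (L : V ≃L[ℝ] V) : 0 < dt L := abs_pos.mpr (det_ne L)

lemma map_affine (L : V ≃L[ℝ] V) (k : V) :
    Measure.map (fun x => L x - k) volume = ENNReal.ofReal (dt L)⁻¹ • (volume : Measure V) := by
  have h1 : Measure.map (fun x : V => L x) volume = ENNReal.ofReal (dt L)⁻¹ • (volume : Measure V) := by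
    have := Measure.map_linearMap_addHaar_eq_smul_addHaar (volume : Measure V) (det_ne L)
    rw [abs_inv] at this
    exact this
  have h2 : Measure.map (fun x => L x - k) volume = Measure.map (fun y => y - k) (Measure.map (fun x : V => L x) volume) := by
    rw [Measure.map_map (by fun_prop) L.continuous.measurable]
    rfl
  rw [h2, h1, Measure.map_smul]
  congr 1
  simp only [sub_eq_add_neg]
  exact map_add_right_eq_self volume (-k)

/-- data of the operator on the space side -/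
noncomputable def dataX (L : V ≃L[ℝ] V) (k : V) : Data V where
  φ x := L x - k
  θ _ := ((dt L ^ (1 / 2 : ℝ) : ℝ) : ℂ)
  κ := ENNReal.ofReal (dt L)⁻¹
  hφ := L.continuous.measurable.sub_const k
  hθ := measurable_const
  hκ0 := by
    have := dt_pos L
    simp only [ne_eq, ENNReal.ofReal_eq_zero, not_le]
    positivity
  hκt := ENNReal.ofReal_ne_top
  hmap := map_affine L k
  hnorm := by
    intro x
    have h := dt_pos L
    rw [← ofReal_norm, Complex.norm_real, Real.norm_of_nonneg (by positivity),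
      ENNReal.ofReal_rpow_of_nonneg (by positivity) (by norm_num), ← ENNReal.ofReal_mul (by positivity),
      ← Real.rpow_mul h.le]
    norm_num
    rw [mul_inv_cancel₀ h.ne']

/-- data of the operator on the frequency side -/
noncomputable def dataF (L : V ≃L[ℝ] V) (k : V) : Data V where
  φ ξ := L.symm ξ
  θ ξ := ((dt L ^ (-(1 / 2) : ℝ) : ℝ) : ℂ) * Complex.exp (((-2 * Real.pi * ⟪k, L.symm ξ⟫ : ℝ) : ℂ) * Complex.I)
  κ := ENNReal.ofReal (dt L)
  hφ := L.symm.continuous.measurable
  hθ := by fun_prop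
  hκ0 := by
    have := dt_pos L
    simp only [ne_eq, ENNReal.ofReal_eq_zero, not_le]
    positivity
  hκt := ENNReal.ofReal_ne_top
  hmap := by
    have h := map_affine L.symm 0
    simp only [sub_zero] at h
    rw [h]
    congr 2
    unfold dt
    have h1 : LinearMap.det (L : V →ₗ[ℝ] V) * LinearMap.det (L.symm : V →ₗ[ℝ] V) = 1 := by
      rw [← LinearMap.det_comp]
      have : (L : V →ₗ[ℝ] V) ∘ₗ (L.symm : V →ₗ[ℝ] V) = LinearMap.id := by
        ext x; simp
      rw [this, LinearMap.det_id]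
    rw [← abs_inv]
    congr 1
    exact inv_eq_of_mul_eq_one_left h1
  hnorm := by
    intro x
    have h := dt_pos L
    rw [enorm_mul, ← ofReal_norm, ← ofReal_norm, Complex.norm_exp_ofReal_mul_I,
      Complex.norm_real, Real.norm_of_nonneg (by positivity), ENNReal.ofReal_one, mul_one,
      ENNReal.ofReal_rpow_of_nonneg (by positivity) (by norm_num), ← ENNReal.ofReal_mul (by positivity),
      ← Real.rpow_mul h.le]
    norm_num
    rw [Real.rpow_neg_one, inv_mul_cancel₀ h.ne']

/-- the Schwartz function `|det L|^{1/2} f(L x - k)` -/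
noncomputable def schX (L : V ≃L[ℝ] V) (k : V) (f : 𝓢(V, ℂ)) : 𝓢(V, ℂ) :=
  ((dt L ^ (1 / 2 : ℝ) : ℝ) : ℂ) • SchwartzMap.compCLMOfContinuousLinearEquiv ℂ L (SchwartzMap.compSubConstCLM ℂ k f)

lemma schX_apply (L : V ≃L[ℝ] V) (k : V) (f : 𝓢(V, ℂ)) (x : V) :
    schX L k f x = ((dt L ^ (1 / 2 : ℝ) : ℝ) : ℂ) * f (L x - k) := by
  simp [schX]

lemma fourier_schX (L : V ≃L[ℝ] V) (hL : ∀ x y : V, ⟪L x, y⟫ = ⟪x, L y⟫) (k : V) (f : 𝓢(V, ℂ)) (ξ : V) :
    𝓕 (schX L k f) ξ = (dataF L k).θ ξ * 𝓕 f (L.symm ξ) := by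
  have h := dt_pos L
  rw [SchwartzMap.fourier_coe, SchwartzMap.fourier_coe, Real.fourier_eq', Real.fourier_eq']
  have hLs : ∀ x y : V, ⟪L.symm x, y⟫ = ⟪x, L.symm y⟫ := by
    intro x y
    have := hL (L.symm x) (L.symm y)
    simpa using this.symm
  -- change of variables
  set F : V → ℂ := fun y => Complex.exp (((-2 * Real.pi * ⟪L.symm (y + k), ξ⟫ : ℝ) : ℂ) * Complex.I)
    • (((dt L ^ (1 / 2 : ℝ) : ℝ) : ℂ) * f y) with hF
  have h1 : ∀ x, Complex.exp (((-2 * Real.pi * ⟪x, ξ⟫ : ℝ) : ℂ) * Complex.I) • schX L k f x = F (L x - k) := by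
    intro x
    rw [schX_apply, hF]
    simp
  have h2 : ∫ x, Complex.exp (((-2 * Real.pi * ⟪x, ξ⟫ : ℝ) : ℂ) * Complex.I) • schX L k f x
      = (dt L)⁻¹ • ∫ y, F y := by
    simp only [h1]
    have hFm : AEStronglyMeasurable F (Measure.map (fun x => L x - k) volume) := by
      have : Continuous F := by
        have := f.continuous
        fun_prop
      exact this.aestronglyMeasurable
    have h3 : ∫ x, F (L x - k) = ∫ y, F y ∂(Measure.map (fun x => L x - k) volume) :=
      (integral_map (L.continuous.measurable.sub_const k).aemeasurable hFm).symm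
    rw [h3, map_affine, integral_smul_measure, ENNReal.toReal_ofReal (by positivity)]
  rw [h2]
  have h4 : ∀ y, F y = (((dt L ^ (1 / 2 : ℝ) : ℝ) : ℂ) * Complex.exp (((-2 * Real.pi * ⟪k, L.symm ξ⟫ : ℝ) : ℂ) * Complex.I))
      * (Complex.exp (((-2 * Real.pi * ⟪y, L.symm ξ⟫ : ℝ) : ℂ) * Complex.I) • f y) := by
    intro y
    rw [hF]
    simp only [smul_eq_mul]
    have h5 : (((-2 * Real.pi * ⟪L.symm (y + k), ξ⟫ : ℝ) : ℂ) * Complex.I)
        = (((-2 * Real.pi * ⟪k, L.symm ξ⟫ : ℝ) : ℂ) * Complex.I) + (((-2 * Real.pi * ⟪y, L.symm ξ⟫ : ℝ) : ℂ) * Complex.I) := by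
      rw [map_add, inner_add_left, hLs, hLs]
      push_cast; ring
    rw [h5, Complex.exp_add]
    ring
  simp only [h4]
  rw [integral_const_mul, Complex.real_smul, ← mul_assoc]
  congr 1
  change _ = ((dt L ^ (-(1 / 2) : ℝ) : ℝ) : ℂ) * Complex.exp (((-2 * Real.pi * ⟪k, L.symm ξ⟫ : ℝ) : ℂ) * Complex.I)
  rw [← mul_assoc, ← Complex.ofReal_mul]
  congr 2
  rw [← Real.rpow_neg_one, ← Real.rpow_add h]
  norm_num

theorem fourier_op (L : V ≃L[ℝ] V) (hL : ∀ x y : V, ⟪L x, y⟫ = ⟪x, L y⟫) (k : V)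
    (f : Lp ℂ 2 (volume : Measure V)) :
    𝓕 ((dataX L k).op f) = (dataF L k).op (𝓕 f) := by
  have hd := SchwartzMap.denseRange_toLpCLM (E := V) (F := ℂ) (p := 2) (μ := (volume : Measure V)) ENNReal.ofNat_ne_top
  refine hd.induction_on (p := fun f => 𝓕 ((dataX L k).op f) = (dataF L k).op (𝓕 f)) f ?_ ?_
  · apply isClosed_eq
    · exact (FourierTransform.continuous_fourier (E := Lp ℂ 2 (volume : Measure V))).comp (dataX L k).op.continuous
    · exact (dataF L k).op.continuous.comp (FourierTransform.continuous_fourier (E := Lp ℂ 2 (volume : Measure V)))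
  · intro g
    change 𝓕 ((dataX L k).op (g.toLp 2 (volume : Measure V))) = (dataF L k).op (𝓕 (g.toLp 2 (volume : Measure V)))
    have h1 : (dataX L k).op (g.toLp 2 (volume : Measure V)) = (schX L k g).toLp 2 (volume : Measure V) := by
      apply Lp.ext
      have e3 : ∀ᵐ x ∂(volume : Measure V), (g.toLp 2 (volume : Measure V)) x = g x := g.coeFn_toLp 2 volume
      filter_upwards [(dataX L k).op_coe (g.toLp 2 (volume : Measure V)), (schX L k g).coeFn_toLp 2 volume,
        (dataX L k).qmp.ae e3] with x h1 h2 h3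
      rw [h1, h2, h3, schX_apply]
      rfl
    rw [h1, SchwartzMap.toLp_fourier_eq, SchwartzMap.toLp_fourier_eq]
    apply Lp.ext
    have e3 : ∀ᵐ x ∂(volume : Measure V), ((𝓕 g).toLp 2 (volume : Measure V)) x = (𝓕 g) x := (𝓕 g).coeFn_toLp 2 volume
    filter_upwards [(dataF L k).op_coe ((𝓕 g).toLp 2 (volume : Measure V)), (𝓕 (schX L k g)).coeFn_toLp 2 volume,
      (dataF L k).qmp.ae e3] with x h1 h2 h3
    rw [h1, h2, h3, fourier_schX L hL]
    rfl

end Pool.Agent.Hhelper25.Covariance
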