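import Mathlib

/-!
Uniqueness of Fourier coefficients for integrable functions supported in one period.
-/

set_option autoImplicit false

namespace Pool.Agent.Hhelper25.FourierUnique

open MeasureTheory Set

lemma integrable_mul (T : ℝ) (H : ℝ → ℂ) (hH : Integrable H) (F : C(AddCircle T, ℂ)) [Fact (0 < T)] :
    Integrable (fun y : ℝ => F (y : AddCircle T) * H y) := by
  refine hH.bdd_mul (c := ‖F‖) ?_ ?_
  · exact (F.continuous.comp (AddCircle.continuous_mk' T)).aestronglyMeasurable
  · exact Filter.Eventually.of_forall (fun y => F.norm_coe_le_norm _)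

lemma fourier_unique (T α : ℝ) (hT : 0 < T) (H : ℝ → ℂ) (hH : Integrable H)
    (h0 : ∀ y, y ∉ Ico α (α + T) → H y = 0)
    (h : ∀ l : ℤ, ∫ y : ℝ, Complex.exp (2 * Real.pi * Complex.I * l * y / T) * H y = 0) :
    ∀ᵐ y, H y = 0 := by
  have : Fact (0 < T) := ⟨hT⟩
  let Λ : C(AddCircle T, ℂ) →ₗ[ℂ] ℂ :=
    { toFun := fun F => ∫ y : ℝ, F (y : AddCircle T) * H y
      map_add' := by
        intro F G
        rw [← integral_add (integrable_mul T H hH F) (integrable_mul T H hH G)]
        refine integral_congr_ae (Filter.Eventually.of_forall (fun y => ?_))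
        simp only [ContinuousMap.add_apply]; ring
      map_smul' := by
        intro c F
        rw [RingHom.id_apply, smul_eq_mul, ← integral_const_mul]
        refine integral_congr_ae (Filter.Eventually.of_forall (fun y => ?_))
        simp only [ContinuousMap.smul_apply, smul_eq_mul]; ring }
  let Λc : C(AddCircle T, ℂ) →L[ℂ] ℂ := Λ.mkContinuous (∫ y, ‖H y‖) (by
    intro F
    calc ‖∫ y : ℝ, F (y : AddCircle T) * H y‖ ≤ ∫ y : ℝ, ‖F‖ * ‖H y‖ := by
          refine norm_integral_le_of_norm_le (hH.norm.const_mul _) (Filter.Eventually.of_forall (fun y => ?_))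
          rw [norm_mul]
          exact mul_le_mul_of_nonneg_right (F.norm_coe_le_norm _) (norm_nonneg _)
      _ = (∫ y, ‖H y‖) * ‖F‖ := by rw [integral_const_mul, mul_comm])
  have hker : ∀ F : C(AddCircle T, ℂ), Λc F = 0 := by
    have h1 : Submodule.span ℂ (range (@fourier T)) ≤ LinearMap.ker Λc.toLinearMap := by
      rw [Submodule.span_le]
      rintro _ ⟨l, rfl⟩
      change ∫ y : ℝ, fourier l (y : AddCircle T) * H y = 0
      rw [← h l]
      refine integral_congr_ae (Filter.Eventually.of_forall (fun y => ?_))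
      simp only [fourier_coe_apply]
    have h2 : (Submodule.span ℂ (range (@fourier T))).topologicalClosure ≤ LinearMap.ker Λc.toLinearMap :=
      Submodule.topologicalClosure_minimal _ h1 (ContinuousLinearMap.isClosed_ker Λc)
    rw [span_fourier_closure_eq_top] at h2
    intro F
    exact h2 Submodule.mem_top
  have hU : ∀ᵐ y, y ∈ Ioo α (α + T) → H y = 0 := by
    refine IsOpen.ae_eq_zero_of_integral_contDiff_smul_eq_zero isOpen_Ioo (hH.locallyIntegrable.locallyIntegrableOn _) ?_
    intro g hg _ hgs
    have hα : g α = 0 := by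
      by_contra hne
      exact (lt_irrefl α) (hgs (subset_tsupport _ hne)).1
    have hαT : g (α + T) = 0 := by
      by_contra hne
      exact (lt_irrefl (α + T)) (hgs (subset_tsupport _ hne)).2
    let G : C(AddCircle T, ℂ) :=
      ⟨AddCircle.liftIco T α (fun y => (g y : ℂ)), AddCircle.liftIco_continuous (by simp [hα, hαT])
        ((Complex.continuous_ofReal.comp hg.continuous).continuousOn)⟩
    have h3 := hker G
    change ∫ y : ℝ, G (y : AddCircle T) * H y = 0 at h3
    rw [← h3]
    refine integral_congr_ae (Filter.Eventually.of_forall (fun y => ?_))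
    by_cases hy : y ∈ Ico α (α + T)
    · change g y • H y = AddCircle.liftIco T α (fun y => (g y : ℂ)) (y : AddCircle T) * H y
      rw [AddCircle.liftIco_coe_apply hy, Complex.real_smul]
    · simp only [h0 y hy, smul_zero, mul_zero]
  have hne : ∀ᵐ y : ℝ, y ≠ α := by
    simp [ae_iff]
  filter_upwards [hU, hne] with y hy hyα
  by_cases h5 : y ∈ Ioo α (α + T)
  · exact hy h5
  · refine h0 y (fun h6 => h5 ⟨lt_of_le_of_ne h6.1 (Ne.symm hyα), h6.2⟩)

end Pool.Agent.Hhelper25.FourierUnique
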