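import Mathlib

/-!
Weighted composition operators on `L²` as isometries, and the covariance of the Fourier transform
on `L²` under affine changes of variable (symmetric linear part).
-/

set_option autoImplicit false

namespace Pool.Agent.Hhelper25.GenOp

open MeasureTheory Set ENNReal

variable {V : Type*} [NormedAddCommGroup V] [InnerProductSpace ℝ V] [FiniteDimensional ℝ V]
  [MeasurableSpace V] [BorelSpace V]

/-- admissible data for a weighted composition operator -/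
structure Data (V : Type*) [NormedAddCommGroup V] [InnerProductSpace ℝ V] [FiniteDimensional ℝ V]
    [MeasurableSpace V] [BorelSpace V] where
  φ : V → V
  θ : V → ℂ
  κ : ℝ≥0∞
  hφ : Measurable φ
  hθ : Measurable θ
  hκ0 : κ ≠ 0
  hκt : κ ≠ ∞
  hmap : Measure.map φ volume = κ • (volume : Measure V)
  hnorm : ∀ x, ‖θ x‖ₑ ^ (2 : ℝ) * κ = 1

lemma Data.qmp (D : Data V) : Measure.QuasiMeasurePreserving D.φ volume volume :=
  ⟨D.hφ, by rw [D.hmap]; exact Measure.smul_absolutelyContinuous⟩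

lemma Data.eLpNorm (D : Data V) (f : V → ℂ) (hf : AEStronglyMeasurable f volume) :
    eLpNorm (fun x => D.θ x * f (D.φ x)) 2 volume = eLpNorm f 2 volume := by
  rw [eLpNorm_eq_lintegral_rpow_enorm_toReal (by norm_num) (by norm_num),
    eLpNorm_eq_lintegral_rpow_enorm_toReal (by norm_num) (by norm_num)]
  congr 1
  simp only [ENNReal.toReal_ofNat]
  have h1 : ∀ x, ‖D.θ x‖ₑ ^ (2 : ℝ) = D.κ⁻¹ := fun x =>
    ENNReal.eq_inv_of_mul_eq_one_left (D.hnorm x)
  have h2 : ∫⁻ x, ‖D.θ x * f (D.φ x)‖ₑ ^ (2 : ℝ) = D.κ⁻¹ * ∫⁻ x, ‖f (D.φ x)‖ₑ ^ (2 : ℝ) := by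
    rw [← lintegral_const_mul' _ _ (ENNReal.inv_ne_top.mpr D.hκ0)]
    refine lintegral_congr (fun x => ?_)
    rw [enorm_mul, ENNReal.mul_rpow_of_nonneg _ _ (by norm_num), h1 x]
  have h3 : AEStronglyMeasurable f (Measure.map D.φ volume) :=
    hf.mono_ac (by rw [D.hmap]; exact Measure.smul_absolutelyContinuous)
  have h4 : ∫⁻ x, ‖f (D.φ x)‖ₑ ^ (2 : ℝ) = ∫⁻ y, ‖f y‖ₑ ^ (2 : ℝ) ∂(Measure.map D.φ volume) := by
    rw [lintegral_map' (h3.enorm.pow_const _) D.hφ.aemeasurable]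
  rw [h2, h4, D.hmap, lintegral_smul_measure, smul_eq_mul, ← mul_assoc,
    ENNReal.inv_mul_cancel D.hκ0 D.hκt, one_mul]

lemma Data.aesm (D : Data V) (f : V → ℂ) (hf : AEStronglyMeasurable f volume) :
    AEStronglyMeasurable (fun x => D.θ x * f (D.φ x)) volume :=
  D.hθ.aestronglyMeasurable.mul (hf.comp_quasiMeasurePreserving D.qmp)

lemma Data.memLp (D : Data V) (f : V → ℂ) (hf : MemLp f 2 volume) :
    MemLp (fun x => D.θ x * f (D.φ x)) 2 volume :=
  ⟨D.aesm f hf.1, by rw [D.eLpNorm f hf.1]; exact hf.2⟩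

/-- the weighted composition operator -/
noncomputable def Data.op (D : Data V) : Lp ℂ 2 (volume : Measure V) →ₗᵢ[ℂ] Lp ℂ 2 (volume : Measure V) where
  toFun f := (D.memLp f (Lp.memLp f)).toLp _
  map_add' := by
    intro f g
    apply Lp.ext
    filter_upwards [(D.memLp (f + g : Lp ℂ 2 (volume : Measure V)) (Lp.memLp _)).coeFn_toLp,
      (D.memLp f (Lp.memLp f)).coeFn_toLp, (D.memLp g (Lp.memLp g)).coeFn_toLp,
      Lp.coeFn_add ((D.memLp f (Lp.memLp f)).toLp _) ((D.memLp g (Lp.memLp g)).toLp _),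
      D.qmp.ae (Lp.coeFn_add f g)] with x h1 h2 h3 h4 h5
    rw [h1, h4, Pi.add_apply, h2, h3, h5, Pi.add_apply]
    ring
  map_smul' := by
    intro c f
    apply Lp.ext
    filter_upwards [(D.memLp (c • f : Lp ℂ 2 (volume : Measure V)) (Lp.memLp _)).coeFn_toLp,
      (D.memLp f (Lp.memLp f)).coeFn_toLp,
      Lp.coeFn_smul c ((D.memLp f (Lp.memLp f)).toLp _),
      D.qmp.ae (Lp.coeFn_smul c f)] with x h1 h2 h4 h5
    rw [h1, RingHom.id_apply, h4, Pi.smul_apply, h2, h5, Pi.smul_apply]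
    simp only [smul_eq_mul]
    ring
  norm_map' := by
    intro f
    change ‖(D.memLp f (Lp.memLp f)).toLp _‖ = ‖f‖
    rw [Lp.norm_toLp, Lp.norm_def, D.eLpNorm f (Lp.aestronglyMeasurable f)]

lemma Data.op_coe (D : Data V) (f : Lp ℂ 2 (volume : Measure V)) :
    D.op f =ᵐ[volume] fun x => D.θ x * f (D.φ x) :=
  (D.memLp f (Lp.memLp f)).coeFn_toLp

end Pool.Agent.Hhelper25.GenOp
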