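import Mathlib

/-!
Greedy exact covering of `ℤ × ℤ` by residue classes: for every `a ≥ 2` there are sequences
`m, t : ℕ → ℤ` such that the sets `{(m i, t i + k a^(i+1)) : k ∈ ℤ}` partition `ℤ × ℤ`.
-/

set_option autoImplicit false

namespace Pool.Agent.Hhelper25.GreedyCover

/-- enumeration of `ℤ × ℤ` -/
noncomputable def en (s : ℕ) : ℤ × ℤ := (Denumerable.eqv (ℤ × ℤ)).symm s

lemma en_surj (p : ℤ × ℤ) : ∃ s, en s = p := ⟨Denumerable.eqv (ℤ × ℤ) p, by simp [en]⟩

/-- the class number `i` based at `q` contains `p` -/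
def hit (a i : ℕ) (q p : ℤ × ℤ) : Prop := p.1 = q.1 ∧ ((a : ℤ) ^ (i + 1)) ∣ p.2 - q.2

/-- greedy choice -/
noncomputable def pick (a : ℕ) : ℕ → ℕ
  | i => sInf {s : ℕ | ∀ i' (_ : i' < i), ¬ hit a i' (en (pick a i')) (en s)}
termination_by i => i

lemma pick_eq (a i : ℕ) :
    pick a i = sInf {s : ℕ | ∀ i' (_ : i' < i), ¬ hit a i' (en (pick a i')) (en s)} := by
  rw [pick]

lemma pick_set_nonempty (a i : ℕ) :
    ({s : ℕ | ∀ i' (_ : i' < i), ¬ hit a i' (en (pick a i')) (en s)} : Set ℕ).Nonempty := by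
  obtain ⟨M, hM⟩ : ∃ M : ℤ, ∀ i' < i, (en (pick a i')).1 < M := by
    refine ⟨∑ i' ∈ Finset.range i, |(en (pick a i')).1| + 1, fun i' hi' => ?_⟩
    have h1 : |(en (pick a i')).1| ≤ ∑ i' ∈ Finset.range i, |(en (pick a i')).1| :=
      Finset.single_le_sum (f := fun i' => |(en (pick a i')).1|) (fun _ _ => abs_nonneg _)
        (Finset.mem_range.mpr hi')
    have h2 := le_abs_self (en (pick a i')).1
    linarith
  obtain ⟨s, hs⟩ := en_surj (M, 0)
  refine ⟨s, fun i' hi' h => ?_⟩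
  have h1 := h.1
  rw [hs] at h1
  have := hM i' hi'
  simp only at h1
  omega

lemma pick_spec (a i i' : ℕ) (h : i' < i) : ¬ hit a i' (en (pick a i')) (en (pick a i)) := by
  have h1 := Nat.sInf_mem (pick_set_nonempty a i)
  rw [← pick_eq] at h1
  exact h1 i' h

lemma hit_self (a i : ℕ) (p : ℤ × ℤ) : hit a i p p := ⟨rfl, by simp⟩

lemma pick_inj (a : ℕ) : Function.Injective (pick a) := by
  intro i j hij
  rcases lt_trichotomy i j with h | h | h
  · exact absurd (hij ▸ hit_self a i _) (pick_spec a j i h)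
  · exact h
  · exact absurd (hij ▸ hit_self a j _) (pick_spec a i j h)

/-- first coordinates -/
noncomputable def mm (a i : ℕ) : ℤ := (en (pick a i)).1

/-- residues -/
noncomputable def tt (a i : ℕ) : ℤ := (en (pick a i)).2

lemma cover (a : ℕ) (m t : ℤ) : ∃ i : ℕ, ∃ k : ℤ, mm a i = m ∧ tt a i + k * (a : ℤ) ^ (i + 1) = t := by
  by_contra hcon
  push Not at hcon
  obtain ⟨s, hs⟩ := en_surj (m, t)
  have h1 : ∀ i, pick a i ≤ s := by
    intro i
    rw [pick_eq]
    refine Nat.sInf_le ?_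
    intro i' _ h
    have h2 := h.1
    obtain ⟨k, hk⟩ := h.2
    rw [hs] at h2 hk
    simp only at h2 hk
    refine hcon i' k h2.symm ?_
    unfold tt
    linarith
  have h2 : Set.Finite (Set.range (pick a)) :=
    (Set.finite_Iic s).subset (by rintro _ ⟨i, rfl⟩; exact h1 i)
  exact Set.infinite_range_of_injective (pick_inj a) h2

lemma disjoint (a : ℕ) (i i' : ℕ) (k k' : ℤ) (h1 : mm a i = mm a i')
    (h2 : tt a i + k * (a : ℤ) ^ (i + 1) = tt a i' + k' * (a : ℤ) ^ (i' + 1)) (ha : a ≠ 0) :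
    i = i' ∧ k = k' := by
  have key : ∀ i i' : ℕ, ∀ k k' : ℤ, mm a i = mm a i' →
      tt a i + k * (a : ℤ) ^ (i + 1) = tt a i' + k' * (a : ℤ) ^ (i' + 1) → ¬ i' < i := by
    intro i i' k k' h1 h2 hlt
    refine pick_spec a i i' hlt ⟨h1, ?_⟩
    obtain ⟨d, hd⟩ := Nat.exists_eq_add_of_lt hlt
    refine ⟨k' - k * (a : ℤ) ^ (d + 1), ?_⟩
    have h3 : (a : ℤ) ^ (i + 1) = (a : ℤ) ^ (i' + 1) * (a : ℤ) ^ (d + 1) := by
      rw [← pow_add]; congr 1; omega
    unfold tt at h2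
    rw [h3] at h2
    linear_combination h2
  have h3 : i = i' := by
    rcases lt_trichotomy i i' with h | h | h
    · exact absurd h (key i' i k' k h1.symm h2.symm)
    · exact h
    · exact absurd h (key i i' k k' h1 h2)
  refine ⟨h3, ?_⟩
  subst h3
  have h4 : (a : ℤ) ^ (i + 1) ≠ 0 := pow_ne_zero _ (by exact_mod_cast ha)
  have h5 : k * (a : ℤ) ^ (i + 1) = k' * (a : ℤ) ^ (i + 1) := by linarith
  exact mul_right_cancel₀ h4 h5

end Pool.Agent.Hhelper25.GreedyCover
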