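import Pool.Agent.Hhelper25.Basis1D
import Pool.Agent.Hhelper25.GreedyCover
import Pool.Agent.Hhelper25.FourierUnique

/-!
The affine system on the frequency side, as functions on `ℝ × ℝ`.
-/

set_option autoImplicit false

namespace Pool.Agent.Hhelper25.Plane

open MeasureTheory Set
open Pool.Agent.Hhelper25.Basis1D Pool.Agent.Hhelper25.GreedyCover

/-- the scale of `y`: `b ^ q ≤ 2 |y| < b ^ (q + 1)` -/
noncomputable def q (b : ℕ) (y : ℝ) : ℤ := Int.log b (2 * |y|)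

lemma q_lt_iff (b : ℕ) (hb : 1 < b) (y : ℝ) (hy : y ≠ 0) (j : ℤ) : q b y < j ↔ 2 * |y| < (b : ℝ) ^ j :=
  (Int.lt_zpow_iff_log_lt hb (by positivity)).symm

lemma le_q_iff (b : ℕ) (hb : 1 < b) (y : ℝ) (hy : y ≠ 0) (j : ℤ) : j ≤ q b y ↔ (b : ℝ) ^ j ≤ 2 * |y| :=
  (Int.zpow_le_iff_le_log hb (by positivity)).symm

lemma q_scale (b : ℕ) (hb : 1 < b) (y : ℝ) (hy : y ≠ 0) (j : ℤ) :
    q b ((b : ℝ) ^ (-j) * y) = q b y - j := by
  have hb0 : (0 : ℝ) < b := by exact_mod_cast (by omega : 0 < b)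
  have hne : (b : ℝ) ^ (-j) * y ≠ 0 := mul_ne_zero (zpow_ne_zero _ hb0.ne') hy
  have habs : 2 * |(b : ℝ) ^ (-j) * y| = (b : ℝ) ^ (-j) * (2 * |y|) := by
    rw [abs_mul, abs_of_pos (zpow_pos hb0 _)]; ring
  apply le_antisymm
  · by_contra h
    push Not at h
    have h1 : q b y - j + 1 ≤ q b ((b : ℝ) ^ (-j) * y) := h
    rw [le_q_iff b hb _ hne, habs] at h1
    have h2 : 2 * |y| < (b : ℝ) ^ (q b y + 1) := (q_lt_iff b hb y hy _).mp (by omega)
    have h3 : (b : ℝ) ^ (-j) * (2 * |y|) < (b : ℝ) ^ (-j) * (b : ℝ) ^ (q b y + 1) :=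
      mul_lt_mul_of_pos_left h2 (zpow_pos hb0 _)
    rw [← zpow_add₀ hb0.ne'] at h3
    have h4 : -j + (q b y + 1) = q b y - j + 1 := by ring
    rw [h4] at h3
    linarith
  · rw [le_q_iff b hb _ hne, habs]
    have h2 : (b : ℝ) ^ (q b y) ≤ 2 * |y| := (le_q_iff b hb y hy _).mp le_rfl
    have h3 : (b : ℝ) ^ (-j) * (b : ℝ) ^ (q b y) ≤ (b : ℝ) ^ (-j) * (2 * |y|) :=
      mul_le_mul_of_nonneg_left h2 (zpow_pos hb0 _).le
    rw [← zpow_add₀ hb0.ne'] at h3
    have h4 : -j + q b y = q b y - j := by ring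
    rw [h4] at h3
    exact h3

lemma q_measurable (b : ℕ) (hb : 1 < b) : Measurable (q b) := by
  refine measurable_to_countable' (fun n => ?_)
  have h1 : q b ⁻¹' {n} = ({y : ℝ | y ≠ 0} ∩ ({y : ℝ | (b : ℝ) ^ n ≤ 2 * |y|} ∩ {y : ℝ | 2 * |y| < (b : ℝ) ^ (n + 1)}))
      ∪ ({y : ℝ | y = 0} ∩ {_y : ℝ | q b 0 = n}) := by
    ext y
    simp only [mem_preimage, mem_singleton_iff, mem_union, mem_inter_iff, mem_ofPred_eq]
    by_cases hy : y = 0
    · subst hy; simp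
    · constructor
      · intro h
        left
        refine ⟨hy, (le_q_iff b hb y hy _).mp h.ge, (q_lt_iff b hb y hy _).mp (by omega)⟩
      · rintro (⟨_, h2, h3⟩ | ⟨h2, _⟩)
        · have h4 := (le_q_iff b hb y hy _).mpr h2
          have h5 := (q_lt_iff b hb y hy _).mpr h3
          omega
        · exact absurd h2 hy
  rw [h1]
  refine MeasurableSet.union (MeasurableSet.inter ?_ (MeasurableSet.inter ?_ ?_)) (MeasurableSet.inter ?_ ?_)
  · exact (measurableSet_singleton (0 : ℝ)).compl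
  · exact measurableSet_le measurable_const (by fun_prop)
  · exact measurableSet_lt (by fun_prop) measurable_const
  · exact measurableSet_singleton (0 : ℝ)
  · exact MeasurableSet.const _

/-- Fourier transform of the wavelet -/
noncomputable def psiHat (a b : ℕ) (z : ℝ × ℝ) : ℂ :=
  if z.2 ≠ 0 ∧ q b z.2 < 0 then
    (Real.sqrt ((a : ℝ) ^ (q b z.2)) : ℂ) *
      ww (tt a (-(q b z.2) - 1).toNat) (mm a (-(q b z.2) - 1).toNat) ((a : ℝ) ^ (q b z.2) * z.1)
  else 0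

lemma psiHat_measurable (a b : ℕ) (hb : 1 < b) : Measurable (psiHat a b) := by
  let F : ℤ × (ℝ × ℝ) → ℂ := fun w => if w.2.2 ≠ 0 ∧ w.1 < 0 then
    (Real.sqrt ((a : ℝ) ^ w.1) : ℂ) *
      ww (tt a (-w.1 - 1).toNat) (mm a (-w.1 - 1).toNat) ((a : ℝ) ^ w.1 * w.2.1)
  else 0
  have hF : Measurable F := by
    refine measurable_from_prod_countable_right (fun n => ?_)
    refine Measurable.ite ?_ ?_ measurable_const
    · have h1 : {z : ℝ × ℝ | z.2 ≠ 0 ∧ n < 0} = {z : ℝ × ℝ | z.2 ≠ 0} ∩ {_z : ℝ × ℝ | n < 0} := by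
        ext z; simp
      change MeasurableSet {z : ℝ × ℝ | z.2 ≠ 0 ∧ n < 0}
      rw [h1]
      refine MeasurableSet.inter ?_ (MeasurableSet.const _)
      exact (measurable_snd (measurableSet_singleton (0 : ℝ))).compl
    · have h1 : Measurable (fun z : ℝ × ℝ => (a : ℝ) ^ n * z.1) := measurable_fst.const_mul _
      have h2 : Measurable (fun z : ℝ × ℝ => ww (tt a (-n - 1).toNat) (mm a (-n - 1).toNat) ((a : ℝ) ^ n * z.1)) :=
        (ww_measurable (tt a (-n - 1).toNat) (mm a (-n - 1).toNat)).comp h1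
      exact h2.const_mul (Real.sqrt ((a : ℝ) ^ n) : ℂ)
  have h2 : psiHat a b = fun z => F (q b z.2, z) := rfl
  rw [h2]
  exact hF.comp (((q_measurable b hb).comp measurable_snd).prodMk measurable_id)

/-- the elements of the affine system on the frequency side -/
noncomputable def G (a b : ℕ) (j k l : ℤ) (z : ℝ × ℝ) : ℂ :=
  if z.2 ≠ 0 ∧ q b z.2 < j then
    ((Real.sqrt ((b : ℝ) ^ (-j)) : ℂ) * ee (-(l * ((b : ℝ) ^ (-j) * z.2)))) *
    ((Real.sqrt ((a : ℝ) ^ (q b z.2)) : ℂ) *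
      ww (tt a (j - q b z.2 - 1).toNat + k * (a : ℤ) ^ ((j - q b z.2 - 1).toNat + 1))
        (mm a (j - q b z.2 - 1).toNat) ((a : ℝ) ^ (q b z.2) * z.1))
  else 0

lemma G_eq (a b : ℕ) (ha : 1 < a) (hb : 1 < b) (j k l : ℤ) (x y : ℝ) :
    G a b j k l (x, y) = ((Real.sqrt (((b : ℝ) / a) ^ (-j)) : ℂ)
      * ee (-(k * ((a : ℝ) ^ j * x) + l * ((b : ℝ) ^ (-j) * y))))
      * psiHat a b ((a : ℝ) ^ j * x, (b : ℝ) ^ (-j) * y) := by
  have hb0 : (0 : ℝ) < b := by exact_mod_cast (by omega : 0 < b)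
  have ha0 : (0 : ℝ) < a := by exact_mod_cast (by omega : 0 < a)
  unfold G psiHat
  simp only
  by_cases hy : y = 0
  · subst hy; simp
  · have hne : (b : ℝ) ^ (-j) * y ≠ 0 := mul_ne_zero (zpow_ne_zero _ hb0.ne') hy
    rw [q_scale b hb y hy]
    by_cases hq : q b y < j
    · rw [if_pos ⟨hy, hq⟩, if_pos ⟨hne, by omega⟩]
      have hi : (-(q b y - j) - 1).toNat = (j - q b y - 1).toNat := by congr 1; ring
      rw [hi]
      have hx : (a : ℝ) ^ (q b y - j) * ((a : ℝ) ^ j * x) = (a : ℝ) ^ (q b y) * x := by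
        rw [← mul_assoc, ← zpow_add₀ ha0.ne']; congr 2; ring
      rw [hx]
      set i := (j - q b y - 1).toNat with hidef
      have hij : j = q b y + i + 1 := by omega
      have hsq : Real.sqrt (((b : ℝ) / a) ^ (-j)) * Real.sqrt ((a : ℝ) ^ (q b y - j))
          = Real.sqrt ((b : ℝ) ^ (-j)) * Real.sqrt ((a : ℝ) ^ (q b y)) := by
        rw [← Real.sqrt_mul (by positivity), ← Real.sqrt_mul (by positivity)]
        congr 1
        rw [div_zpow, zpow_sub₀ ha0.ne', zpow_neg (a : ℝ) j]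
        field_simp
      unfold ww
      by_cases hfl : ⌊(a : ℝ) ^ (q b y) * x⌋ = mm a i
      · rw [if_pos hfl, if_pos hfl]
        have hphase : (k : ℝ) * ((a : ℝ) ^ j * x) = (k * (a : ℝ) ^ (i + 1)) * ((a : ℝ) ^ (q b y) * x) := by
          have : (a : ℝ) ^ j = (a : ℝ) ^ (i + 1) * (a : ℝ) ^ (q b y) := by
            rw [← zpow_natCast, ← zpow_add₀ ha0.ne']; congr 1; push_cast; omega
          rw [this]; ring
        have he : ee (-(l * ((b : ℝ) ^ (-j) * y))) * ee (-(((tt a i + k * (a : ℤ) ^ (i + 1) : ℤ) : ℝ) * ((a : ℝ) ^ (q b y) * x)))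
            = ee (-(k * ((a : ℝ) ^ j * x) + l * ((b : ℝ) ^ (-j) * y))) * ee (-((tt a i : ℝ) * ((a : ℝ) ^ (q b y) * x))) := by
          rw [← ee_add, ← ee_add, hphase]
          congr 1
          push_cast; ring
        have hsqc : ((Real.sqrt (((b : ℝ) / a) ^ (-j)) : ℂ)) * (Real.sqrt ((a : ℝ) ^ (q b y - j)) : ℂ)
          = (Real.sqrt ((b : ℝ) ^ (-j)) : ℂ) * (Real.sqrt ((a : ℝ) ^ (q b y)) : ℂ) := by
          exact_mod_cast hsq
        linear_combination ((Real.sqrt ((b : ℝ) ^ (-j)) : ℂ) * (Real.sqrt ((a : ℝ) ^ (q b y)) : ℂ)) * he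
          - (ee (-(k * ((a : ℝ) ^ j * x) + l * ((b : ℝ) ^ (-j) * y))) * ee (-((tt a i : ℝ) * ((a : ℝ) ^ (q b y) * x)))) * hsqc
      · rw [if_neg hfl, if_neg hfl]; simp
    · rw [if_neg (fun h => hq h.2), if_neg (fun h => by have := h.2; omega), mul_zero]

lemma G_measurable (a b : ℕ) (ha : 1 < a) (hb : 1 < b) (j k l : ℤ) : Measurable (G a b j k l) := by
  have h : G a b j k l = fun z : ℝ × ℝ => ((Real.sqrt (((b : ℝ) / a) ^ (-j)) : ℂ)
      * ee (-(k * ((a : ℝ) ^ j * z.1) + l * ((b : ℝ) ^ (-j) * z.2))))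
      * psiHat a b ((a : ℝ) ^ j * z.1, (b : ℝ) ^ (-j) * z.2) := by
    funext z
    exact G_eq a b ha hb j k l z.1 z.2
  rw [h]
  refine Measurable.mul (measurable_const.mul (ee_measurable.comp (by fun_prop))) ((psiHat_measurable a b hb).comp ?_)
  exact (measurable_fst.const_mul _).prodMk (measurable_snd.const_mul _)

end Pool.Agent.Hhelper25.Plane
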