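import Pool.Agent.Hhelper25.PlaneOrtho

/-!
Completeness of the frequency-side system.
-/

set_option autoImplicit false

namespace Pool.Agent.Hhelper25.Plane

open MeasureTheory Set
open Pool.Agent.Hhelper25.Basis1D Pool.Agent.Hhelper25.GreedyCover Pool.Agent.Hhelper25.FourierUnique
open scoped ENNReal

lemma G_modulate (a b : ℕ) (j k l : ℤ) (x y : ℝ) :
    G a b j k l (x, y) = ee (-(l * ((b : ℝ) ^ (-j) * y))) * G a b j k 0 (x, y) := by
  unfold G
  simp only
  split_ifs
  · simp only [Int.cast_zero, zero_mul, neg_zero, ee_zero]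
    ring
  · simp

lemma slice_complete (a b : ℕ) (ha : 1 < a) (hb : 1 < b) (y : ℝ) (hy : y ≠ 0) (g : ℝ → ℂ)
    (hg : MemLp g 2 (volume : Measure ℝ))
    (h : ∀ j k : ℤ, ∫ x, (starRingEnd ℂ) (G a b j k 0 (x, y)) * g x = 0) :
    ∀ᵐ x, g x = 0 := by
  have hb0 : (0 : ℝ) < b := by exact_mod_cast (by omega : 0 < b)
  have ha0 : (0 : ℝ) < a := by exact_mod_cast (by omega : 0 < a)
  set n := q b y with hn
  set c : ℝ := (a : ℝ) ^ n with hc
  have hc0 : 0 < c := zpow_pos ha0 _
  have key : ∀ m : ℤ, ∀ᵐ x, (Ico ((m : ℝ) / c) ((m : ℝ) / c + 1 / c)).indicator g x = 0 := by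
    intro m
    refine fourier_unique (1 / c) ((m : ℝ) / c) (by positivity) _ ?_ ?_ ?_
    · rw [integrable_indicator_iff measurableSet_Ico]
      exact (hg.restrict (Ico ((m : ℝ) / c) ((m : ℝ) / c + 1 / c))).integrable (by norm_num)
    · intro x hx
      exact indicator_of_notMem hx _
    · intro s
      obtain ⟨i, k, hm, hs⟩ := cover a m s
      have h1 := h (n + i + 1) k
      have hi : (n + (i : ℤ) + 1 - n - 1).toNat = i := by
        have : n + (i : ℤ) + 1 - n - 1 = i := by ring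
        rw [this]; simp
      have hG : ∀ x, (starRingEnd ℂ) (G a b (n + i + 1) k 0 (x, y)) * g x
          = ((Real.sqrt ((b : ℝ) ^ (-(n + (i : ℤ) + 1))) : ℂ) * (Real.sqrt c : ℂ)) *
            (Complex.exp (2 * Real.pi * Complex.I * s * x / ((1 / c : ℝ) : ℂ)) *
              (Ico ((m : ℝ) / c) ((m : ℝ) / c + 1 / c)).indicator g x) := by
        intro x
        unfold G
        simp only
        rw [if_pos ⟨hy, by rw [← hn]; omega⟩, ← hn, ← hc, hi, hs, hm]
        have hmem : ⌊c * x⌋ = m ↔ x ∈ Ico ((m : ℝ) / c) ((m : ℝ) / c + 1 / c) := by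
          rw [Int.floor_eq_iff, mem_Ico, div_le_iff₀ hc0, ← add_div, lt_div_iff₀ hc0, mul_comm c x]
        unfold ww
        by_cases hx : ⌊c * x⌋ = m
        · rw [if_pos hx, indicator_of_mem (hmem.mp hx)]
          have he : Complex.exp (2 * Real.pi * Complex.I * s * x / ((1 / c : ℝ) : ℂ)) = ee (s * (c * x)) := by
            unfold ee
            congr 1
            have : (c : ℂ) ≠ 0 := by exact_mod_cast hc0.ne'
            push_cast
            field_simp
          rw [he]
          simp only [Int.cast_zero, zero_mul, neg_zero, ee_zero, mul_one]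
          rw [map_mul, map_mul, Complex.conj_ofReal, Complex.conj_ofReal, ee_conj, neg_neg]
          ring
        · rw [if_neg hx, indicator_of_notMem (fun h => hx (hmem.mpr h))]
          simp
      simp only [hG] at h1
      rw [integral_const_mul] at h1
      rcases mul_eq_zero.mp h1 with h2 | h2
      · exfalso
        rcases mul_eq_zero.mp h2 with h3 | h3
        · have : Real.sqrt ((b : ℝ) ^ (-(n + (i : ℤ) + 1))) ≠ 0 := (Real.sqrt_pos.mpr (zpow_pos hb0 _)).ne'
          exact this (by exact_mod_cast h3)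
        · have : Real.sqrt c ≠ 0 := (Real.sqrt_pos.mpr hc0).ne'
          exact this (by exact_mod_cast h3)
      · exact h2
  rw [← ae_all_iff] at key
  filter_upwards [key] with x hx
  have h1 := hx ⌊c * x⌋
  rwa [indicator_of_mem] at h1
  rw [mem_Ico, div_le_iff₀ hc0, ← add_div, lt_div_iff₀ hc0, mul_comm x c]
  exact ⟨Int.floor_le _, Int.lt_floor_add_one _⟩

theorem G_complete (a b : ℕ) (ha : 1 < a) (hb : 1 < b) (f : ℝ × ℝ → ℂ) (hfm : Measurable f)
    (hf : MemLp f 2 (volume : Measure (ℝ × ℝ)))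
    (h : ∀ j k l : ℤ, ∫ z : ℝ × ℝ, (starRingEnd ℂ) (G a b j k l z) * f z = 0) :
    ∀ᵐ z : ℝ × ℝ, f z = 0 := by
  have hb0 : (0 : ℝ) < b := by exact_mod_cast (by omega : 0 < b)
  -- the slices of the coefficient integrals vanish
  have hH : ∀ j k : ℤ, ∀ᵐ y : ℝ, ∫ x, (starRingEnd ℂ) (G a b j k 0 (x, y)) * f (x, y) = 0 := by
    intro j k
    have hint := integrable_conj_mul _ _ (G_memLp a b ha hb j k 0) hf
    rw [Measure.volume_eq_prod] at hint
    have hT : (0 : ℝ) < (b : ℝ) ^ j := zpow_pos hb0 _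
    refine fourier_unique ((b : ℝ) ^ j) (-((b : ℝ) ^ j) / 2) hT _ hint.integral_prod_right ?_ ?_
    · intro y hy
      have hG0 : ∀ x, G a b j k 0 (x, y) = 0 := by
        intro x
        unfold G
        rw [if_neg]
        rintro ⟨h1, h2⟩
        have h3 := (q_lt_iff b hb y h1 j).mp h2
        apply hy
        have h4 : |y| < (b : ℝ) ^ j / 2 := by linarith
        have h5 := abs_lt.mp h4
        constructor
        · linarith [h5.1]
        · linarith [h5.2]
      simp [hG0]
    · intro l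
      have h1 := h j k l
      have hint2 := integrable_conj_mul _ _ (G_memLp a b ha hb j k l) hf
      rw [Measure.volume_eq_prod] at hint2 h1
      rw [integral_prod_symm _ hint2] at h1
      rw [← h1]
      refine integral_congr_ae (Filter.Eventually.of_forall (fun y => ?_))
      simp only
      have h2 : ∀ x, (starRingEnd ℂ) (G a b j k l (x, y)) * f (x, y)
          = Complex.exp (2 * Real.pi * Complex.I * l * y / (((b : ℝ) ^ j : ℝ) : ℂ)) *
            ((starRingEnd ℂ) (G a b j k 0 (x, y)) * f (x, y)) := by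
        intro x
        rw [G_modulate, map_mul, ee_conj, neg_neg]
        have he : Complex.exp (2 * Real.pi * Complex.I * l * y / (((b : ℝ) ^ j : ℝ) : ℂ))
            = ee (l * ((b : ℝ) ^ (-j) * y)) := by
          unfold ee
          congr 1
          have : (((b : ℝ) ^ j : ℝ) : ℂ) ≠ 0 := by exact_mod_cast hT.ne'
          rw [zpow_neg]
          push_cast at this ⊢
          field_simp
        rw [he]; ring
      simp only [h2]
      rw [integral_const_mul]
  have hH' : ∀ᵐ y : ℝ, ∀ j k : ℤ, ∫ x, (starRingEnd ℂ) (G a b j k 0 (x, y)) * f (x, y) = 0 := by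
    rw [ae_all_iff]; intro j
    rw [ae_all_iff]; intro k
    exact hH j k
  have hLt : ∫⁻ z : ℝ × ℝ, ‖f z‖ₑ ^ (2 : ℝ) < ∞ := by
    have := hf.2
    rw [eLpNorm_lt_top_iff_lintegral_rpow_enorm_lt_top (by norm_num) (by norm_num)] at this
    simpa using this
  have hmeas : Measurable (fun z : ℝ × ℝ => ‖f z‖ₑ ^ (2 : ℝ)) := hfm.enorm.pow_const _
  have hprod : ∫⁻ z : ℝ × ℝ, ‖f z‖ₑ ^ (2 : ℝ) = ∫⁻ y : ℝ, ∫⁻ x : ℝ, ‖f (x, y)‖ₑ ^ (2 : ℝ) := by
    rw [Measure.volume_eq_prod, lintegral_prod_symm _ hmeas.aemeasurable]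
  have hslice : ∀ᵐ y : ℝ, ∫⁻ x : ℝ, ‖f (x, y)‖ₑ ^ (2 : ℝ) < ∞ := by
    rw [hprod] at hLt
    exact ae_lt_top hmeas.lintegral_prod_left' hLt.ne
  have hne : ∀ᵐ y : ℝ, y ≠ 0 := by simp [ae_iff]
  have hzero : ∀ᵐ y : ℝ, ∫⁻ x : ℝ, ‖f (x, y)‖ₑ ^ (2 : ℝ) = 0 := by
    filter_upwards [hH', hslice, hne] with y h1 h2 h3
    have hg : MemLp (fun x => f (x, y)) 2 (volume : Measure ℝ) := by
      refine ⟨(hfm.comp measurable_prodMk_right).aestronglyMeasurable, ?_⟩
      rw [eLpNorm_lt_top_iff_lintegral_rpow_enorm_lt_top (by norm_num) (by norm_num)]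
      simpa using h2
    have h4 := slice_complete a b ha hb y h3 (fun x => f (x, y)) hg h1
    have h6 : Measurable (fun x : ℝ => ‖f (x, y)‖ₑ ^ (2 : ℝ)) := hmeas.comp measurable_prodMk_right
    rw [lintegral_eq_zero_iff h6]
    filter_upwards [h4] with x hx
    simp [hx]
  have h5 : ∫⁻ z : ℝ × ℝ, ‖f z‖ₑ ^ (2 : ℝ) = 0 := by
    rw [hprod, lintegral_eq_zero_iff hmeas.lintegral_prod_left']
    exact hzero
  rw [lintegral_eq_zero_iff hmeas] at h5
  filter_upwards [h5] with z hz
  have : ‖f z‖ₑ ^ (2 : ℝ) = 0 := hz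
  simpa using this

end Pool.Agent.Hhelper25.Plane
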