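import Pool.Agent.Hhelper25.Plane

/-!
Orthonormality of the frequency-side system.
-/

set_option autoImplicit false

namespace Pool.Agent.Hhelper25.Plane

open MeasureTheory Set
open Pool.Agent.Hhelper25.Basis1D Pool.Agent.Hhelper25.GreedyCover
open scoped ENNReal

lemma slice_inner (a b : ℕ) (ha : 1 < a) (hb : 1 < b) (j k l j' k' l' : ℤ) (y : ℝ) :
    ∫ x, (starRingEnd ℂ) (G a b j k l (x, y)) * G a b j' k' l' (x, y) =
      if (y ≠ 0 ∧ q b y < j) ∧ (j = j' ∧ k = k') then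
        (((b : ℝ) ^ (-j) : ℝ) : ℂ) * ee (((l - l' : ℤ) : ℝ) * ((b : ℝ) ^ (-j) * y)) else 0 := by
  have hb0 : (0 : ℝ) < b := by exact_mod_cast (by omega : 0 < b)
  have ha0 : (0 : ℝ) < a := by exact_mod_cast (by omega : 0 < a)
  unfold G
  simp only
  by_cases h1 : y ≠ 0 ∧ q b y < j
  · by_cases h2 : y ≠ 0 ∧ q b y < j'
    · simp only [if_pos h1, if_pos h2]
      set i := (j - q b y - 1).toNat with hi
      set i' := (j' - q b y - 1).toNat with hi'
      have hij : j = q b y + i + 1 := by have := h1.2; omega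
      have hij' : j' = q b y + i' + 1 := by have := h2.2; omega
      set c : ℝ := (a : ℝ) ^ (q b y) with hc
      have hc0 : 0 < c := zpow_pos ha0 _
      have h3 : ∀ x : ℝ, (starRingEnd ℂ) (((Real.sqrt ((b : ℝ) ^ (-j)) : ℂ) * ee (-(l * ((b : ℝ) ^ (-j) * y)))) *
            ((Real.sqrt c : ℂ) * ww (tt a i + k * (a : ℤ) ^ (i + 1)) (mm a i) (c * x))) *
          (((Real.sqrt ((b : ℝ) ^ (-j')) : ℂ) * ee (-(l' * ((b : ℝ) ^ (-j') * y)))) *
            ((Real.sqrt c : ℂ) * ww (tt a i' + k' * (a : ℤ) ^ (i' + 1)) (mm a i') (c * x)))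
          = ((Real.sqrt ((b : ℝ) ^ (-j)) : ℂ) * (Real.sqrt ((b : ℝ) ^ (-j')) : ℂ) * ee (l * ((b : ℝ) ^ (-j) * y)) * ee (-(l' * ((b : ℝ) ^ (-j') * y))))
            * (((Real.sqrt c : ℂ) * (starRingEnd ℂ) (ww (tt a i + k * (a : ℤ) ^ (i + 1)) (mm a i) (c * x))) *
              ((Real.sqrt c : ℂ) * ww (tt a i' + k' * (a : ℤ) ^ (i' + 1)) (mm a i') (c * x))) := by
        intro x
        rw [map_mul, map_mul, map_mul, Complex.conj_ofReal, Complex.conj_ofReal, ee_conj, neg_neg]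
        ring
      simp only [h3]
      rw [integral_const_mul, ww_inner_scaled c hc0]
      by_cases h4 : j = j' ∧ k = k'
      · obtain ⟨h5, h6⟩ := h4
        subst h5; subst h6
        have hii : i = i' := by omega
        rw [← hii, if_pos ⟨rfl, rfl⟩, if_pos ⟨h1, rfl, rfl⟩, mul_one]
        have h7 : (Real.sqrt ((b : ℝ) ^ (-j)) : ℂ) * (Real.sqrt ((b : ℝ) ^ (-j)) : ℂ) = (((b : ℝ) ^ (-j) : ℝ) : ℂ) := by
          rw [← Complex.ofReal_mul, Real.mul_self_sqrt (by positivity)]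
        rw [mul_assoc, ← ee_add, h7]
        congr 2
        push_cast; ring
      · rw [if_neg, if_neg (fun h => h4 h.2), mul_zero]
        rintro ⟨h5, h6⟩
        obtain ⟨h7, h8⟩ := disjoint a i i' k k' h6 h5 (by omega)
        exact h4 ⟨by omega, h8⟩
    · simp only [if_neg h2, mul_zero, integral_zero]
      rw [if_neg]
      rintro ⟨h3, h4, _⟩
      exact h2 (h4 ▸ h3)
  · simp only [if_neg h1, map_zero, zero_mul, integral_zero]
    rw [if_neg (fun h => h1 h.1)]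

lemma slice_lintegral (a b : ℕ) (ha : 1 < a) (hb : 1 < b) (j k l : ℤ) (y : ℝ) :
    ∫⁻ x, ‖G a b j k l (x, y)‖ₑ ^ (2 : ℝ) ≤
      (Icc (-((b : ℝ) ^ j)) ((b : ℝ) ^ j)).indicator (fun _ => ENNReal.ofReal ((b : ℝ) ^ (-j))) y := by
  have hb0 : (0 : ℝ) < b := by exact_mod_cast (by omega : 0 < b)
  have ha0 : (0 : ℝ) < a := by exact_mod_cast (by omega : 0 < a)
  by_cases h1 : y ≠ 0 ∧ q b y < j
  · have hy : y ∈ Icc (-((b : ℝ) ^ j)) ((b : ℝ) ^ j) := by
      have h2 := (q_lt_iff b hb y h1.1 j).mp h1.2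
      have h3 : |y| ≤ (b : ℝ) ^ j := by have := abs_nonneg y; linarith
      exact abs_le.mp h3
    rw [indicator_of_mem hy]
    set i := (j - q b y - 1).toNat with hi
    set c : ℝ := (a : ℝ) ^ (q b y) with hc
    have hc0 : 0 < c := zpow_pos ha0 _
    have h3 : ∀ x, ‖G a b j k l (x, y)‖ₑ ^ (2 : ℝ)
        = (Ico ((mm a i : ℝ) / c) (((mm a i : ℝ) + 1) / c)).indicator (fun _ => ENNReal.ofReal ((b : ℝ) ^ (-j) * c)) x := by
      intro x
      unfold G
      simp only [if_pos h1]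
      rw [← hc, ← hi]
      unfold ww
      have hmem : ⌊c * x⌋ = mm a i ↔ x ∈ Ico ((mm a i : ℝ) / c) (((mm a i : ℝ) + 1) / c) := by
        rw [Int.floor_eq_iff, mem_Ico, div_le_iff₀ hc0, lt_div_iff₀ hc0, mul_comm c x]
      by_cases hx : ⌊c * x⌋ = mm a i
      · rw [if_pos hx, indicator_of_mem (hmem.mp hx)]
        have h4 : ‖((Real.sqrt ((b : ℝ) ^ (-j)) : ℂ) * ee (-(l * ((b : ℝ) ^ (-j) * y)))) *
            ((Real.sqrt c : ℂ) * ee (-(((tt a i + k * (a : ℤ) ^ (i + 1) : ℤ) : ℝ) * (c * x))))‖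
            = Real.sqrt ((b : ℝ) ^ (-j) * c) := by
          rw [norm_mul, norm_mul, norm_mul, ee_norm, ee_norm, Complex.norm_real, Complex.norm_real,
            Real.norm_of_nonneg (Real.sqrt_nonneg _), Real.norm_of_nonneg (Real.sqrt_nonneg _),
            mul_one, mul_one, Real.sqrt_mul (by positivity)]
        rw [← ofReal_norm, h4, ENNReal.ofReal_rpow_of_nonneg (Real.sqrt_nonneg _) (by norm_num)]
        congr 1
        rw [Real.rpow_two, Real.sq_sqrt (by positivity)]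
      · rw [if_neg hx, indicator_of_notMem (fun h => hx (hmem.mpr h))]
        simp
    simp only [h3]
    rw [lintegral_indicator_const measurableSet_Ico, Real.volume_Ico, ← ENNReal.ofReal_mul (by positivity)]
    apply le_of_eq
    congr 1
    field_simp
    ring
  · have h2 : ∀ x, G a b j k l (x, y) = 0 := by
      intro x
      unfold G
      rw [if_neg h1]
    simp [h2]

lemma G_memLp (a b : ℕ) (ha : 1 < a) (hb : 1 < b) (j k l : ℤ) :
    MemLp (G a b j k l) 2 (volume : Measure (ℝ × ℝ)) := by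
  refine ⟨(G_measurable a b ha hb j k l).aestronglyMeasurable, ?_⟩
  rw [eLpNorm_lt_top_iff_lintegral_rpow_enorm_lt_top (by norm_num) (by norm_num)]
  simp only [ENNReal.toReal_ofNat]
  rw [Measure.volume_eq_prod, lintegral_prod_symm _ ((G_measurable a b ha hb j k l).enorm.pow_const _).aemeasurable]
  refine lt_of_le_of_lt (lintegral_mono (slice_lintegral a b ha hb j k l)) ?_
  rw [lintegral_indicator_const measurableSet_Icc, Real.volume_Icc]
  exact ENNReal.mul_lt_top ENNReal.ofReal_lt_top ENNReal.ofReal_lt_top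

lemma integrable_conj_mul (f g : ℝ × ℝ → ℂ) (hf : MemLp f 2 (volume : Measure (ℝ × ℝ)))
    (hg : MemLp g 2 (volume : Measure (ℝ × ℝ))) :
    Integrable (fun z => (starRingEnd ℂ) (f z) * g z) (volume : Measure (ℝ × ℝ)) := by
  have h1 : MemLp (fun z => (starRingEnd ℂ) (f z)) 2 (volume : Measure (ℝ × ℝ)) := hf.star
  exact h1.integrable_mul hg

theorem G_inner (a b : ℕ) (ha : 1 < a) (hb : 1 < b) (j k l j' k' l' : ℤ) :
    ∫ z : ℝ × ℝ, (starRingEnd ℂ) (G a b j k l z) * G a b j' k' l' z =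
      if j = j' ∧ k = k' ∧ l = l' then 1 else 0 := by
  have hb0 : (0 : ℝ) < b := by exact_mod_cast (by omega : 0 < b)
  have hint := integrable_conj_mul _ _ (G_memLp a b ha hb j k l) (G_memLp a b ha hb j' k' l')
  rw [Measure.volume_eq_prod] at hint ⊢
  rw [integral_prod_symm _ hint]
  simp only [slice_inner a b ha hb]
  by_cases h : j = j' ∧ k = k'
  · obtain ⟨h5, h6⟩ := h
    subst h5; subst h6
    have hc0 : (0 : ℝ) < (b : ℝ) ^ (-j) := zpow_pos hb0 _
    have h1 : ∫ y : ℝ, (if (y ≠ 0 ∧ q b y < j) ∧ (j = j ∧ k = k) then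
        (((b : ℝ) ^ (-j) : ℝ) : ℂ) * ee (((l - l' : ℤ) : ℝ) * ((b : ℝ) ^ (-j) * y)) else 0)
        = ∫ y : ℝ, (if 2 * |y| * (b : ℝ) ^ (-j) < 1 then
          (((b : ℝ) ^ (-j) : ℝ) : ℂ) * ee (((l - l' : ℤ) : ℝ) * ((b : ℝ) ^ (-j) * y)) else 0) := by
      refine integral_congr_ae ?_
      have hne : ∀ᵐ y : ℝ, y ≠ 0 := by simp [ae_iff]
      filter_upwards [hne] with y hy
      have h2 : ((y ≠ 0 ∧ q b y < j) ∧ (j = j ∧ k = k)) ↔ 2 * |y| * (b : ℝ) ^ (-j) < 1 := by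
        rw [q_lt_iff b hb y hy j, zpow_neg, ← div_eq_mul_inv, div_lt_one (zpow_pos hb0 _)]
        simp [hy]
      exact if_congr h2 rfl rfl
    rw [h1, integral_centred ((b : ℝ) ^ (-j)) hc0 (l - l')]
    simp [sub_eq_zero]
  · have h1 : ∀ y : ℝ, (if (y ≠ 0 ∧ q b y < j) ∧ (j = j' ∧ k = k') then
        (((b : ℝ) ^ (-j) : ℝ) : ℂ) * ee (((l - l' : ℤ) : ℝ) * ((b : ℝ) ^ (-j) * y)) else 0) = 0 :=
      fun y => if_neg (fun h2 => h h2.2)
    simp only [h1, integral_zero]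
    rw [if_neg (fun h2 => h ⟨h2.1, h2.2.1⟩)]

end Pool.Agent.Hhelper25.Plane
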